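import Pool.Agent.N408.IB.Stm

/-! # Project IB, leaf SGN1 (helper823): the sign of the belt mass at `w = 1 / 10` -/

set_option autoImplicit false

open Real Set MeasureTheory IB408 Filter Topology

namespace N823.IB.SGN1

noncomputable section

/-- a bound for the second differences and the tangent parabola -/
theorem tangent {f : ℝ → ℝ} {C x m : ℝ}
    (h2 : ∀ x δ, f (x + δ) + f (x - δ) - 2 * f x ≤ C * δ ^ 2)
    (hf : HasDerivAt f m x) (d : ℝ) : f (x + d) ≤ f x + m * d + C / 2 * d ^ 2 := by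
  have key : ∀ n : ℕ, f (x + d) - f x ≤
      2 ^ n * (f (x + d / 2 ^ n) - f x) + C / 2 * d ^ 2 * (1 - 1 / 2 ^ n) := by
    intro n
    induction n with
    | zero => simp
    | succ n ih =>
      have h := h2 (x + d / 2 ^ (n + 1)) (d / 2 ^ (n + 1))
      have e1 : x + d / 2 ^ (n + 1) + d / 2 ^ (n + 1) = x + d / 2 ^ n := by
        rw [pow_succ]; ring
      have e2 : x + d / 2 ^ (n + 1) - d / 2 ^ (n + 1) = x := by ring
      rw [e1, e2] at h
      refine ih.trans ?_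
      have h3 : 2 ^ n * (f (x + d / 2 ^ n) - f x) ≤
          2 ^ n * (2 * (f (x + d / 2 ^ (n + 1)) - f x) + C * (d / 2 ^ (n + 1)) ^ 2) := by
        apply mul_le_mul_of_nonneg_left _ (by positivity)
        linarith
      have h4 : (2 : ℝ) ^ n * (C * (d / 2 ^ (n + 1)) ^ 2) = C / 2 * d ^ 2 * (1 / 2 ^ (n + 1)) := by
        field_simp
        ring
      have h5 : C / 2 * d ^ 2 * (1 - 1 / 2 ^ (n + 1)) =
          C / 2 * d ^ 2 * (1 - 1 / 2 ^ n) + C / 2 * d ^ 2 * (1 / 2 ^ (n + 1)) := by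
        field_simp
        ring
      have h6 : (2 : ℝ) ^ (n + 1) = 2 ^ n * 2 := pow_succ _ _
      rw [h5, ← h4]
      calc _ ≤ 2 ^ n * (2 * (f (x + d / 2 ^ (n + 1)) - f x) + C * (d / 2 ^ (n + 1)) ^ 2) +
            C / 2 * d ^ 2 * (1 - 1 / 2 ^ n) := by linarith
        _ = 2 ^ n * 2 * (f (x + d / 2 ^ (n + 1)) - f x) +
            (C / 2 * d ^ 2 * (1 - 1 / 2 ^ n) + 2 ^ n * (C * (d / 2 ^ (n + 1)) ^ 2)) := by ring
        _ = _ := by rw [h6]
  have ht : Tendsto (fun n : ℕ => (1 : ℝ) / 2 ^ n) atTop (𝓝 0) := by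
    have := tendsto_pow_atTop_nhds_zero_of_lt_one (r := (1 / 2 : ℝ)) (by norm_num) (by norm_num)
    refine this.congr fun n => ?_
    rw [div_pow, one_pow]
  have hlim : Tendsto (fun n : ℕ => 2 ^ n * (f (x + d / 2 ^ n) - f x) +
      C / 2 * d ^ 2 * (1 - 1 / 2 ^ n)) atTop (𝓝 (m * d + C / 2 * d ^ 2 * (1 - 0))) := by
    refine Tendsto.add ?_ (Tendsto.const_mul _ (tendsto_const_nhds.sub ht))
    have hg : HasDerivAt (fun t : ℝ => f (x + t * d)) (m * d) 0 := by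
      have h1 : HasDerivAt (fun t : ℝ => x + t * d) d 0 := by
        simpa using ((hasDerivAt_id (0 : ℝ)).mul_const d).const_add x
      have h2 : HasDerivAt f m ((fun t : ℝ => x + t * d) 0) := by simpa using hf
      exact h2.comp (0 : ℝ) h1
    have hs := hg.tendsto_slope_zero_right
    have ht' : Tendsto (fun n : ℕ => (1 : ℝ) / 2 ^ n) atTop (𝓝[>] 0) := by
      refine tendsto_nhdsWithin_iff.2 ⟨ht, Eventually.of_forall fun n => ?_⟩
      exact mem_Ioi.2 (by positivity)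
    refine (hs.comp ht').congr fun n => ?_
    simp only [Function.comp, zero_add, zero_mul, add_zero, smul_eq_mul, one_div, inv_inv]
    congr 3
    ring
  have := ge_of_tendsto' hlim key
  linarith

/-- the derivative of the odd perturbation -/
def Ed (β : ℝ) : ℝ := 1 / 10 * cos β * ((b ^ 2 - sin β ^ 2) * (b ^ 2 - 5 * sin β ^ 2) / b ^ 2)

lemma b_pos : 0 < b := by norm_num [b]

lemma Ed_neg (β : ℝ) : Ed (-β) = Ed β := by
  unfold Ed
  rw [cos_neg, sin_neg, neg_sq]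

lemma ob_deriv {β : ℝ} (h : |sin β| < b) : HasDerivAt (ob (1 / 10)) (Ed β) β := by
  have h0 : ob (1 / 10) =ᶠ[𝓝 β]
      fun γ => 1 / 10 * sin γ * (b ^ 2 - sin γ ^ 2) ^ 2 / b ^ 2 := by
    have h1 : ∀ᶠ γ in 𝓝 β, |sin γ| < b :=
      (continuous_abs.comp continuous_sin).continuousAt.eventually_lt continuousAt_const h
    filter_upwards [h1] with γ hγ
    have h2 : 0 ≤ b ^ 2 - sin γ ^ 2 := by
      have := sq_lt_sq' (abs_lt.1 hγ).1 (abs_lt.1 hγ).2
      linarith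
    unfold ob
    rw [max_eq_left h2]
  have h1 : HasDerivAt (fun γ => 1 / 10 * sin γ * (b ^ 2 - sin γ ^ 2) ^ 2 / b ^ 2) (Ed β) β := by
    have hs := hasDerivAt_sin β
    have h2 := (((hs.const_mul (1 / 10)).mul (((hs.pow 2).const_sub (b ^ 2)).pow 2)).div_const
      (b ^ 2))
    have h3 : HasDerivAt (fun γ => 1 / 10 * sin γ * (b ^ 2 - sin γ ^ 2) ^ 2 / b ^ 2) _ β := h2
    refine h3.congr_deriv ?_
    have hb0 : b ≠ 0 := by norm_num [b]
    simp only [Ed, Pi.pow_apply, Nat.cast_ofNat]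
    norm_num
    field_simp
    ring
  exact h1.congr_of_eventuallyEq h0

lemma Ed_bound {β : ℝ} (h : |sin β| < b) : |Ed β| ≤ b ^ 2 / 10 := by
  have hv : sin β ^ 2 ≤ b ^ 2 := by
    have := sq_lt_sq' (abs_lt.1 h).1 (abs_lt.1 h).2
    linarith
  have hb2 : 0 < b ^ 2 := pow_pos b_pos 2
  have hv0 : 0 ≤ sin β ^ 2 := sq_nonneg _
  have h1 : |(b ^ 2 - sin β ^ 2) * (b ^ 2 - 5 * sin β ^ 2) / b ^ 2| ≤ b ^ 2 := by
    rw [abs_le]
    constructor
    · rw [le_div_iff₀ hb2]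
      nlinarith [sq_nonneg (b ^ 2 - sin β ^ 2), mul_nonneg hv0 (sub_nonneg.2 hv),
        sq_nonneg (b ^ 2 - 2 * sin β ^ 2)]
    · rw [div_le_iff₀ hb2]
      nlinarith [mul_nonneg hv0 (sub_nonneg.2 hv)]
  unfold Ed
  rw [abs_mul, abs_mul]
  have h2 := abs_cos_le_one β
  rw [abs_of_pos (by norm_num : (0 : ℝ) < 1 / 10)]
  calc _ ≤ 1 / 10 * 1 * b ^ 2 := by gcongr
    _ = _ := by ring

lemma st_le (h1 : S_L1) (h2 : S_L2) (h3 : S_ODD1) (h5 : S_BAS1) {q : ℝ → ℝ} (hq : Adm q)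
    (γ : ℝ) : st q γ ≤ 33 / 100000 * b ^ 4 := by
  obtain ⟨⟨hal1, hal2, hal3, hal4, hc0, hc1, hc2, hc3⟩, hoc, hoce, hoc0, hocb, hocz, hocl, -, -⟩ :=
    h3
  obtain ⟨hhc, hPc, hPb, hPl, hst, hstb, hste, hstz, hstl, hPib, hPic⟩ := h5 q hq
  have hq4 := hq.2.2.2
  have hb0 := b_pos
  have hcap : ∀ θ, -(61 / 100000) * b ^ 2 ≤ Pcap q θ - 1 := by
    intro θ
    have hs : ∀ σ : ℝ, (σ = 1 ∨ σ = -1) →
        1 + σ * oc θ - 2 * (b / 100) ^ 2 - 2 * b ^ 3 ≤ Leg (hc q σ) θ := by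
      intro σ hσ
      have hσ1 : |σ| = 1 := by rcases hσ with rfl | rfl <;> simp
      have hg : Continuous (fun ψ => 1 + σ * oc ψ) := continuous_const.add (continuous_const.mul hoc)
      have hgb : ∀ ψ, |(1 + σ * oc ψ) - 1| ≤ 1 / 10 := by
        intro ψ
        rw [add_sub_cancel_left, abs_mul, hσ1, one_mul, abs_of_nonneg (hoc0 ψ)]
        refine (hocb ψ).trans (by norm_num [b])
      obtain ⟨hc1', hc2', -⟩ := hhc σ hσ
      have hA := (h1 (hc q σ) hc1' (fun ψ => (hc2' ψ).trans (by norm_num [b]))).2.2.2.2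
        (fun ψ => 1 + σ * oc ψ) hg hgb (b ^ 3) (fun ψ => by
          have : hc q σ ψ - (1 + σ * oc ψ) = q (sin ψ) := by unfold hc; ring
          rw [this]
          exact hq4 _) θ
      have hB := (h2 (fun ψ => 1 + σ * oc ψ) hg hgb).2.2.2.1 (b / 100) (by positivity)
        (by norm_num [b]) (fun x y => by
          have : 1 + σ * oc x - (1 + σ * oc y) = σ * (oc x - oc y) := by ring
          rw [this, abs_mul, hσ1, one_mul]
          exact hocl x y) θ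
      have hA' := (abs_le.1 hA).1
      linarith
    have hL1 := hs 1 (Or.inl rfl)
    have hL2 := hs (-1) (Or.inr rfl)
    have hcube : ∀ L : ℝ, 0 ≤ L → 3 * L - 2 ≤ L ^ 3 := by
      intro L hL
      nlinarith [mul_nonneg (sq_nonneg (L - 1)) (by linarith : (0 : ℝ) ≤ L + 2)]
    have ho0 := hoc0 θ
    have ho1 := hocb θ
    have hbv : b = 1 / 1000000 := rfl
    have hb3 : b ^ 3 = b ^ 2 * (1 / 1000000) := by rw [pow_succ, hbv]
    have hb2 : b ^ 2 ≤ 1 / 1000 := by norm_num [b]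
    have hb2' : 0 < b ^ 2 := by positivity
    have hp1 : 0 ≤ Leg (hc q 1) θ := by
      refine le_trans ?_ hL1
      rw [div_pow, hb3]
      nlinarith
    have hp2 : 0 ≤ Leg (hc q (-1)) θ := by
      refine le_trans ?_ hL2
      rw [div_pow, hb3]
      nlinarith
    have k1 := hcube _ hp1
    have k2 := hcube _ hp2
    unfold Pcap
    rw [div_pow, hb3] at hL1 hL2
    nlinarith
  have hμ0 : 0 ≤ min |γ| al := le_min (abs_nonneg _) (by linarith)
  have hμ1 : min |γ| al ≤ al := min_le_right _ _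
  have halpi : al ≤ π := by
    have : al ≤ 1 := hal2.trans (by norm_num [b])
    linarith [pi_gt_three]
  have hb4 : b ^ 4 = b ^ 2 * b ^ 2 := by ring
  have hb2' : 0 < b ^ 2 := by positivity
  have hPi : -(32 / 100000) * b ^ 4 ≤ Pint q γ := by
    unfold Pint
    have h6 : ∫ θ in (min |γ| al)..al, (-(61 / 100000) * b ^ 2) * sin θ ≤
        ∫ θ in (min |γ| al)..al, (Pcap q θ - 1) * sin θ := by
      refine intervalIntegral.integral_mono_on hμ1 ?_ ?_ ?_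
      · exact (continuous_const.mul continuous_sin).intervalIntegrable _ _
      · exact ((hPc.sub continuous_const).mul continuous_sin).intervalIntegrable _ _
      · intro θ hθ
        exact mul_le_mul_of_nonneg_right (hcap θ)
          (sin_nonneg_of_nonneg_of_le_pi (by linarith [hθ.1]) (by linarith [hθ.2]))
    rw [intervalIntegral.integral_const_mul, integral_sin, hal4] at h6
    have h7 : cos (min |γ| al) ≤ 1 := cos_le_one _
    refine le_trans ?_ h6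
    rw [hb4]
    nlinarith
  have hC : c ≤ cos (min |γ| al) := by
    rw [← hal4]
    exact cos_le_cos_of_nonneg_of_le_pi hμ0 halpi hμ1
  have hPu := (abs_le.1 (hPib γ)).1
  have hb4s : b ^ 4 ≤ 1 / 100000 := by norm_num [b]
  have hb2s : b ^ 2 ≤ 1 / 1000 := by norm_num [b]
  have hb4p : 0 < b ^ 4 := by positivity
  have hden : 99 / 100 ≤ cos (min |γ| al) + Pint q γ := by linarith
  unfold st
  rw [sub_le_iff_le_add, div_le_iff₀ (by linarith)]
  nlinarith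

lemma leg_le (h1 : S_L1) (h2 : S_L2) (h3 : S_ODD1) (h4 : S_ODD2) (h5 : S_BAS1) (h6 : S_BAS2)
    {q : ℝ → ℝ} (hq : Adm q) {β : ℝ} (hβ : |sin β| < b) :
    Leg (hb q (1 / 10)) β ≤ 1 + 34 / 100000 * b ^ 4 + ob (1 / 10) β - 49 / 100 * Ed β ^ 2 := by
  obtain ⟨hbc, hbb, -⟩ := h6 q (1 / 10) hq (by norm_num) le_rfl
  obtain ⟨-, -, hob, -, -, hob2, -⟩ := h4 (1 / 10) (by norm_num) le_rfl
  have hb0 := b_pos
  have hE := Ed_bound hβ
  have hb2s : b ^ 2 ≤ 1 / 1000 := by norm_num [b]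
  have hd : -Ed β ∈ Icc (-1 : ℝ) 1 := by
    have := abs_le.1 hE
    constructor <;> linarith
  have hL := (h1 (hb q (1 / 10)) hbc (fun ψ => (hbb ψ).trans (by norm_num [b]))).2.1 β (-Ed β) hd
  refine hL.trans ?_
  have hcos : 1 - (-Ed β) ^ 2 / 2 ≤ cos (-Ed β) := one_sub_sq_div_two_le_cos
  have hE2 : Ed β ^ 2 ≤ b ^ 4 / 100 := by
    have := sq_le_sq' (abs_le.1 hE).1 (abs_le.1 hE).2
    calc _ ≤ _ := this
      _ = _ := by ring
  have hE0 : 0 ≤ Ed β ^ 2 := sq_nonneg _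
  have hb4s : b ^ 4 ≤ 1 / 100000 := by norm_num [b]
  have hb4p : 0 < b ^ 4 := by positivity
  rw [neg_sq] at hcos
  have htan := tangent (f := ob (1 / 10)) (C := b) (fun x δ => (abs_le.1 (hob2 x δ)).2)
    (ob_deriv hβ) (-Ed β)
  have hst := st_le h1 h2 h3 h5 hq (β + -Ed β)
  have ho := abs_le.1 (hob β)
  have hb3s : 1 / 10 * (3 / 10) * b ^ 3 ≤ 1 / 1000 := by norm_num [b]
  have hbs : b = 1 / 1000000 := rfl
  rw [div_le_iff₀ (by linarith)]
  have hN : hb q (1 / 10) (β + -Ed β) ≤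
      1 + 33 / 100000 * b ^ 4 + ob (1 / 10) β - Ed β ^ 2 + b / 2 * Ed β ^ 2 := by
    unfold hb
    nlinarith
  refine hN.trans ?_
  set o := ob (1 / 10) β
  set E2 := Ed β ^ 2
  have hM0 : 0 ≤ 1 + 34 / 100000 * b ^ 4 + o - 49 / 100 * E2 := by linarith
  have hM1 : 1 + 34 / 100000 * b ^ 4 + o - 49 / 100 * E2 ≤ 101 / 100 := by linarith
  have h7 : (1 + 34 / 100000 * b ^ 4 + o - 49 / 100 * E2) * (1 - E2 / 2) ≤
      (1 + 34 / 100000 * b ^ 4 + o - 49 / 100 * E2) * cos (-Ed β) :=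
    mul_le_mul_of_nonneg_left hcos hM0
  refine le_trans ?_ h7
  have h8 : (1 + 34 / 100000 * b ^ 4 + o - 49 / 100 * E2) * (E2 / 2) ≤ 101 / 100 * (E2 / 2) :=
    mul_le_mul_of_nonneg_right hM1 (by linarith)
  have h9 : b / 2 * E2 ≤ 1 / 1000 * E2 := by
    apply mul_le_mul_of_nonneg_right _ hE0
    rw [hbs]; norm_num
  nlinarith

lemma belt_le (h1 : S_L1) (h2 : S_L2) (h3 : S_ODD1) (h4 : S_ODD2) (h5 : S_BAS1) (h6 : S_BAS2)
    {q : ℝ → ℝ} (hq : Adm q) {β : ℝ} (hβ : |sin β| < b) :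
    Pbelt q (1 / 10) β - 1 ≤ 11 / 10000 * b ^ 4 - 145 / 100 * Ed β ^ 2 := by
  obtain ⟨hbc, hbb, -⟩ := h6 q (1 / 10) hq (by norm_num) le_rfl
  obtain ⟨-, hobn, hob, -, -, hob2, -⟩ := h4 (1 / 10) (by norm_num) le_rfl
  have hL1 := leg_le h1 h2 h3 h4 h5 h6 hq hβ
  have hβ' : |sin (-β)| < b := by rwa [sin_neg, abs_neg]
  have hL2 := leg_le h1 h2 h3 h4 h5 h6 hq hβ'
  rw [Ed_neg, hobn] at hL2
  have hcl := (h1 (hb q (1 / 10)) hbc (fun ψ => (hbb ψ).trans (by norm_num [b]))).2.2.2.1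
    (1 / 10) le_rfl (fun ψ => (hbb ψ).trans (by norm_num [b]))
  have hn1 : 0 ≤ Leg (hb q (1 / 10)) β := by linarith [(abs_le.1 (hcl β)).1]
  have hn2 : 0 ≤ Leg (hb q (1 / 10)) (-β) := by linarith [(abs_le.1 (hcl (-β))).1]
  have hb0 := b_pos
  have hE := Ed_bound hβ
  have hE2 : Ed β ^ 2 ≤ b ^ 4 / 100 := by
    have := sq_le_sq' (abs_le.1 hE).1 (abs_le.1 hE).2
    calc _ ≤ _ := this
      _ = _ := by ring
  have hE0 : 0 ≤ Ed β ^ 2 := sq_nonneg _
  have ho := abs_le.1 (hob β)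
  have ho2 : ob (1 / 10) β ^ 2 ≤ 9 / 10000 * b ^ 6 := by
    have := sq_le_sq' ho.1 ho.2
    calc _ ≤ _ := this
      _ = _ := by ring
  have hb4s : b ^ 4 ≤ 1 / 100000 := by norm_num [b]
  have hb4p : 0 < b ^ 4 := by positivity
  have hb6 : b ^ 6 ≤ 1 / 100000 * b ^ 4 := by norm_num [b]
  have hb6p : 0 ≤ b ^ 6 := by positivity
  have c1 := pow_le_pow_left₀ hn1 hL1 3
  have c2 := pow_le_pow_left₀ hn2 hL2 3
  set o := ob (1 / 10) β
  set E2 := Ed β ^ 2
  set A := 34 / 100000 * b ^ 4 - 49 / 100 * E2 with hA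
  have hA1 : A ≤ b ^ 4 / 100 := by rw [hA]; linarith
  have hA2 : -(b ^ 4 / 100) ≤ A := by rw [hA]; linarith
  have hAA : A ^ 2 ≤ 1 / 100000 * b ^ 4 := by
    have := sq_le_sq' hA2 hA1
    calc _ ≤ _ := this
      _ = b ^ 4 * (b ^ 4 / 10000) := by ring
      _ ≤ b ^ 4 * (1 / 100000) := mul_le_mul_of_nonneg_left (by linarith) hb4p.le
      _ = _ := by ring
  have e1 : 1 + 34 / 100000 * b ^ 4 + o - 49 / 100 * E2 = 1 + A + o := by rw [hA]; ring
  have e2 : 1 + 34 / 100000 * b ^ 4 + -o - 49 / 100 * E2 = 1 + A - o := by rw [hA]; ring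
  rw [e1] at c1
  rw [e2] at c2
  have hsum : ((1 + A + o) ^ 3 + (1 + A - o) ^ 3) / 2 =
      1 + 3 * A + A ^ 2 * (3 + A) + 3 * (1 + A) * o ^ 2 := by ring
  have t1 : A ^ 2 * (3 + A) ≤ A ^ 2 * 4 := mul_le_mul_of_nonneg_left (by linarith) (sq_nonneg _)
  have t2 : 3 * (1 + A) * o ^ 2 ≤ 4 * o ^ 2 :=
    mul_le_mul_of_nonneg_right (by linarith) (sq_nonneg _)
  unfold Pbelt
  calc _ ≤ ((1 + A + o) ^ 3 + (1 + A - o) ^ 3) / 2 - 1 := by linarith
    _ = 3 * A + A ^ 2 * (3 + A) + 3 * (1 + A) * o ^ 2 := by rw [hsum]; ring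
    _ ≤ 3 * A + 4 / 100000 * b ^ 4 + 4 * (9 / 10000 * b ^ 6) := by linarith
    _ ≤ _ := by rw [hA]; linarith

/-- IB/SGN1 -/
theorem t (h1 : S_L1) (h2 : S_L2) (h3 : S_ODD1) (h4 : S_ODD2) (h5 : S_BAS1) (h6 : S_BAS2) :
    IB408.S_SGN1 := by
  intro q hq
  obtain ⟨-, -, -, -, -, -, -, -, hptc, -⟩ := h6 q (1 / 10) hq (by norm_num) le_rfl
  have hb0 := b_pos
  have hb1 : b < 1 := by norm_num [b]
  have hb4p : 0 < b ^ 4 := by positivity
  have hpt : ∀ τ ∈ Ioo (0 : ℝ) 1, pt q (1 / 10) (τ * b) ≤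
      b ^ 4 * (11 / 10000 - 145 / 100 * (999 / 100000) * (1 - 6 * τ ^ 2 + 5 * τ ^ 4) ^ 2) := by
    intro τ hτ
    have hτb : τ * b < b := by nlinarith [hτ.2]
    have hτb0 : 0 < τ * b := mul_pos hτ.1 hb0
    have hsin : sin (arcsin (τ * b)) = τ * b := sin_arcsin (by linarith) (by linarith)
    have h7 : |sin (arcsin (τ * b))| < b := by
      rw [hsin, abs_of_pos hτb0]
      exact hτb
    have h8 := belt_le h1 h2 h3 h4 h5 h6 hq h7
    have hcos : cos (arcsin (τ * b)) ^ 2 = 1 - (τ * b) ^ 2 := by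
      have := sin_sq_add_cos_sq (arcsin (τ * b))
      rw [hsin] at this
      linarith
    have hEd : Ed (arcsin (τ * b)) ^ 2 =
        1 / 100 * (1 - (τ * b) ^ 2) * (b ^ 4 * (1 - 6 * τ ^ 2 + 5 * τ ^ 4) ^ 2) := by
      unfold Ed
      rw [hsin]
      have e : (b ^ 2 - (τ * b) ^ 2) * (b ^ 2 - 5 * (τ * b) ^ 2) / b ^ 2 =
          b ^ 2 * (1 - 6 * τ ^ 2 + 5 * τ ^ 4) := by
        field_simp
        ring
      rw [e]
      calc (1 / 10 * cos (arcsin (τ * b)) * (b ^ 2 * (1 - 6 * τ ^ 2 + 5 * τ ^ 4))) ^ 2 =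
          1 / 100 * (cos (arcsin (τ * b)) ^ 2) * (b ^ 4 * (1 - 6 * τ ^ 2 + 5 * τ ^ 4) ^ 2) := by
            ring
        _ = _ := by rw [hcos]
    have hbb : (τ * b) ^ 2 ≤ 1 / 1000 := by
      have h9 : (τ * b) ^ 2 ≤ b ^ 2 := pow_le_pow_left₀ hτb0.le hτb.le 2
      exact h9.trans (by norm_num [b])
    have h10 : 0 ≤ b ^ 4 * (1 - 6 * τ ^ 2 + 5 * τ ^ 4) ^ 2 := by positivity
    have h11 : 999 / 100000 * (b ^ 4 * (1 - 6 * τ ^ 2 + 5 * τ ^ 4) ^ 2) ≤
        Ed (arcsin (τ * b)) ^ 2 := by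
      rw [hEd]
      apply mul_le_mul_of_nonneg_right _ h10
      linarith
    unfold pt
    calc _ ≤ _ := h8
      _ ≤ 11 / 10000 * b ^ 4 - 145 / 100 * (999 / 100000 *
          (b ^ 4 * (1 - 6 * τ ^ 2 + 5 * τ ^ 4) ^ 2)) := by linarith
      _ = _ := by ring
  have hint : ∫ τ in (0 : ℝ)..1, b ^ 4 * (11 / 10000 - 145 / 100 * (999 / 100000) *
      (1 - 6 * τ ^ 2 + 5 * τ ^ 4) ^ 2) =
      b ^ 4 * (11 / 10000 - 145 / 100 * (999 / 100000) * (128 / 315)) := by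
    have hder : ∀ τ ∈ uIcc (0 : ℝ) 1, HasDerivAt (fun τ : ℝ => b ^ 4 * (11 / 10000 * τ -
        145 / 100 * (999 / 100000) * (τ - 4 * τ ^ 3 + 46 / 5 * τ ^ 5 - 60 / 7 * τ ^ 7 +
          25 / 9 * τ ^ 9))) (b ^ 4 * (11 / 10000 - 145 / 100 * (999 / 100000) *
            (1 - 6 * τ ^ 2 + 5 * τ ^ 4) ^ 2)) τ := by
      intro τ _
      have hi := hasDerivAt_id' τ
      have hp : ∀ n : ℕ, HasDerivAt (fun τ : ℝ => τ ^ n) (n * τ ^ (n - 1)) τ := fun n =>
        hasDerivAt_pow n τ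
      have := ((hi.const_mul (11 / 10000)).sub (((((hi.sub ((hp 3).const_mul 4)).add
        ((hp 5).const_mul (46 / 5))).sub ((hp 7).const_mul (60 / 7))).add
          ((hp 9).const_mul (25 / 9))).const_mul (145 / 100 * (999 / 100000)))).const_mul (b ^ 4)
      refine this.congr_deriv ?_
      congr 1
      norm_num
      ring
    rw [intervalIntegral.integral_eq_sub_of_hasDerivAt hder
      (Continuous.intervalIntegrable (by fun_prop) _ _)]
    norm_num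
  have hmono : Av q (1 / 10) b ≤ ∫ τ in (0 : ℝ)..1, b ^ 4 * (11 / 10000 -
      145 / 100 * (999 / 100000) * (1 - 6 * τ ^ 2 + 5 * τ ^ 4) ^ 2) := by
    unfold Av
    refine intervalIntegral.integral_mono_on_of_le_Ioo zero_le_one ?_ ?_ hpt
    · exact (hptc.comp (continuous_id.mul continuous_const)).intervalIntegrable _ _
    · exact Continuous.intervalIntegrable (by fun_prop) _ _
  rw [hint] at hmono
  refine lt_of_le_of_lt hmono ?_
  have : (11 / 10000 - 145 / 100 * (999 / 100000) * (128 / 315) : ℝ) < 0 := by norm_num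
  nlinarith

end

end N823.IB.SGN1
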